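import Mathlib

set_option autoImplicit false

namespace Pool.Agent.Results.MP_1ca5ad_gt.Cons

open Set Filter Topology TopologicalSpace Cardinal

abbrev Cp (X : Type) [TopologicalSpace X] : Type := {f : X → ℝ // Continuous f}

def SeqTo {Y : Type} [TopologicalSpace Y] (A : Set Y) (y : Y) : Prop :=
  ∃ u : ℕ → Y, (∀ n, u n ∈ A) ∧ Tendsto u atTop (𝓝 y)

def FU (Y : Type) [TopologicalSpace Y] : Prop := ∀ (A : Set Y), ∀ y ∈ closure A, SeqTo A y

def FSep (Y : Type) [TopologicalSpace Y] : Prop :=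
  ∃ A : Set Y, A.Countable ∧ ∀ y, y ∈ closure A ∧ ∀ A' ⊆ A, y ∈ closure A' → SeqTo A' y

/-- `p > ℵ₁`. -/
def PBig : Prop := ∀ ℱ : Set (Set ℕ), #ℱ ≤ ℵ₁ → (∀ 𝒢 ⊆ ℱ, 𝒢.Finite → (⋂₀ 𝒢).Infinite) →
  ∃ P : Set ℕ, P.Infinite ∧ ∀ F ∈ ℱ, (P \ F).Finite

/-- the Sorgenfrey line -/
def S : Type := ℝ
instance : TopologicalSpace S := generateFrom {U | ∃ a b : ℝ, U = Ico a b}

lemma cl {X : Type} [TopologicalSpace X] {A : Set (Cp X)} {y : Cp X} :
    y ∈ closure A ↔ ∀ F : Finset X, ∀ ε > 0, ∃ f ∈ A, ∀ x ∈ F, |f.1 x - y.1 x| < ε := by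
  refine ⟨fun h F ε e => (mem_closure_iff.1 h {f | ∀ x ∈ F, |f.1 x - y.1 x| < ε} ?_ (by simpa using fun _ _ => e)).imp
    fun f hf => ⟨hf.2, hf.1⟩, fun h => mem_closure_iff_nhds.2 fun U hU => ?_⟩
  · simp only [ofPred_forall]
    exact isOpen_biInter_finset fun x _ => isOpen_lt (((continuous_apply x).comp continuous_subtype_val).sub
      continuous_const).abs continuous_const
  · obtain ⟨T, t1, t2⟩ := (mem_nhds_induced _ _ _).1 hU
    rw [nhds_pi, Filter.mem_pi] at t1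
    obtain ⟨F, f1, t, f2, f3⟩ := t1
    obtain ⟨ε, e1, e2⟩ := (((eventually_all_finite f1).2 fun x _ => (eventually_ball_subset
      (f2 x))).filter_mono nhdsWithin_le_nhds |>.and (self_mem_nhdsWithin (s := Ioi (0 : ℝ)))).exists
    obtain ⟨f, a, b⟩ := h f1.toFinset ε e2
    exact ⟨f, t2 (f3 fun x hx => e1 x hx (b x (f1.mem_toFinset.2 hx))), a⟩

lemma ev {X : Type} [TopologicalSpace X] {u : ℕ → Cp X} {y : Cp X} :
    Tendsto u atTop (𝓝 y) ↔ ∀ x, Tendsto (fun n => (u n).1 x) atTop (𝓝 (y.1 x)) :=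
  tendsto_subtype_rng.trans tendsto_pi_nhds

lemma ip (F : Finset ℝ) (r : ℝ → ℝ) : ∃ g : ℝ → ℝ, Continuous g ∧ ∀ x ∈ F, g x = r x := by
  classical
  exact ⟨_, (Lagrange.interpolate F id r).continuous, fun x hx => Lagrange.eval_interpolate_at_node r (injOn_id _) hx⟩

lemma nS {x : ℝ} {U : Set S} (h : U ∈ @nhds S _ x) : ∃ b > x, Ico x b ⊆ U := by
  obtain ⟨V, v1, v2, v3⟩ := mem_nhds_iff.1 h
  suffices k : ∃ b > x, Ico x b ⊆ V from k.imp fun b h => ⟨h.1, h.2.trans v1⟩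
  clear v1 h
  induction v2 with
  | basic s hs => obtain ⟨a, b, rfl⟩ := hs; exact ⟨b, v3.2, fun y hy => ⟨v3.1.trans hy.1, hy.2⟩⟩
  | univ => exact ⟨x + 1, by simp, subset_univ _⟩
  | inter s t _ _ i j =>
    obtain ⟨b, b1, b2⟩ := i v3.1
    obtain ⟨c, c1, c2⟩ := j v3.2
    exact ⟨min b c, lt_min b1 c1, fun y hy => ⟨b2 ⟨hy.1, hy.2.trans_le (min_le_left ..)⟩,
      c2 ⟨hy.1, hy.2.trans_le (min_le_right ..)⟩⟩⟩
  | sUnion s _ i =>
    obtain ⟨t, t1, t2⟩ := v3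
    exact (i t t1 t2).imp fun b h => ⟨h.1, h.2.trans (subset_sUnion_of_mem t1)⟩

lemma cS : Continuous (show S → ℝ from id) := continuous_def.2 fun U o => isOpen_iff_forall_mem_open.2 fun x hx => by
  obtain ⟨a, b, h, s⟩ := mem_nhds_iff_exists_Ioo_subset.1 (o.mem_nhds hx)
  exact ⟨@Ico ℝ _ x b, fun y hy => s ⟨h.1.trans_le hy.1, hy.2⟩, .basic _ ⟨_, _, rfl⟩, @le_rfl ℝ _ x, h.2⟩

lemma sorg : ¬FSep (Cp S) := by
  classical
  rintro ⟨A, -, h⟩
  obtain ⟨e, he⟩ := exists_surjective_nat (ℚ × ℕ)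
  let O : ℕ → Set ℝ := fun j => Ioo ((e j).1 : ℝ) ((e j).1 + 1 / ((e j).2 + 1))
  obtain ⟨u, u1, u2⟩ := (h ⟨0, continuous_zero⟩).2
    {f ∈ A | ∃ k : ℕ, 1 / 2 < f.1 (k : ℝ) ∧ ∀ j ≤ k, ∃ x ∈ O j, 1 / 2 < f.1 x} (sep_subset _ _) (cl.2 fun F ε p => by
      obtain ⟨_, ⟨k, rfl⟩, hk⟩ := (infinite_range_of_injective (Nat.cast_injective (R := ℝ))).exists_notMem_finset F
      choose q q1 q2 using fun j => (Ioo_infinite (lt_add_of_pos_right _ (by positivity)) : (O j).Infinite).exists_notMem_finset F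
      let T : Finset ℝ := F ∪ insert (k : ℝ) ((Finset.range (k + 1)).image q)
      obtain ⟨g, g1, g2⟩ := ip T fun x => if x ∈ F then 0 else 1
      obtain ⟨f, f1, f2⟩ := cl.1 (h ⟨g, g1.comp cS⟩).1 T (min ε (1 / 2)) (by positivity)
      have a : ∀ x ∈ T, x ∉ F → 1 / 2 < f.1 x := fun x hx n => by
        have := (abs_lt.1 ((f2 x hx).trans_le (min_le_right _ _))).1
        rw [show (⟨g, g1.comp cS⟩ : Cp S).1 x = 1 from (g2 x hx).trans (if_neg n)] at this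
        linarith
      refine ⟨f, ⟨f1, k, a _ (by simp [T]) hk, fun j hj => ⟨q j, q1 j, a _ (Finset.mem_union_right _
        (Finset.mem_insert_of_mem (Finset.mem_image_of_mem _ (Finset.mem_range.2 (by omega))))) (q2 j)⟩⟩, fun x hx => ?_⟩
      have := (f2 x (Finset.mem_union_left _ hx)).trans_le (min_le_left _ _)
      rwa [show (⟨g, g1.comp cS⟩ : Cp S).1 x = 0 from (g2 x (Finset.mem_union_left _ hx)).trans (if_pos hx)] at this)
  have t : ∀ x : ℝ, ∀ᶠ n in atTop, (u n).1 x < 1 / 2 := fun x => (ev.1 u2 x).eventually (gt_mem_nhds (show (0 : ℝ) < 1 / 2 by norm_num))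
  obtain ⟨N, x, hx⟩ := nonempty_interior_of_iUnion_of_closed (f := fun N => closure {x : ℝ | ∀ n ≥ N, (u n).1 x < 1 / 2})
    (fun _ => isClosed_closure) (eq_univ_of_forall fun x => mem_iUnion.2 ((eventually_atTop.1 (t x)).imp
      fun _ h => subset_closure h))
  obtain ⟨a, b, h1, h2⟩ := mem_nhds_iff_exists_Ioo_subset.1 (mem_interior_iff_mem_nhds.1 hx)
  obtain ⟨c, c1, c2⟩ := exists_rat_btwn (h1.1.trans h1.2)
  obtain ⟨d, hd⟩ := exists_nat_one_div_lt (sub_pos.2 c2)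
  obtain ⟨j, hj⟩ := he (c, d)
  obtain ⟨n, n1, n2⟩ := (((eventually_all_finite (finite_lt_nat j)).2 fun k _ => t k).and (eventually_ge_atTop N)).exists
  obtain ⟨-, k, k1, k2⟩ := u1 n
  obtain ⟨y, y1, y2⟩ := k2 j (not_lt.1 fun q => (n1 k q).not_gt k1)
  simp only [O, hj] at y1
  obtain ⟨z, z1, z2⟩ := nS ((isOpen_lt continuous_const (u n).2).mem_nhds y2)
  have m : y < min z b := lt_min z1 (by linarith [y1.2])
  obtain ⟨w, w1, w2⟩ := exists_between m
  obtain ⟨v, v1, v2⟩ := mem_closure_iff.1 (h2 ⟨by linarith [y1.1], w2.trans_le (min_le_right _ _)⟩) _ isOpen_Ioo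
    (⟨w1, w2.trans_le (min_le_left _ _)⟩ : w ∈ Ioo y z)
  exact (v2 n n2).not_gt (z2 ⟨v1.1.le, v1.2⟩)

def D (T : Set ℝ) : Type := T
instance (T : Set ℝ) : TopologicalSpace (D T) := ⊥
instance (T : Set ℝ) : DiscreteTopology (D T) := ⟨rfl⟩

theorem result : (PBig → ∃ (X : Type) (_ : TopologicalSpace X), T35Space X ∧ FSep (Cp X) ∧ ¬FU (Cp X)) ∧
    ¬FSep (Cp S) := by
  classical
  refine ⟨fun H => ?_, sorg⟩
  obtain ⟨T, -, hT⟩ := le_mk_iff_exists_subset.1 (show ℵ₁ ≤ #(univ : Set ℝ) by simpa [mk_real] using aleph_one_le_continuum)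
  have hD : #(D T) = ℵ₁ := hT
  refine ⟨D T, inferInstance, inferInstance, ?_, fun h => ?_⟩
  · let r : C(ℝ, ℝ) → Cp (D T) := fun g => ⟨fun x => g x.1, continuous_of_discreteTopology⟩
    have : SeparableSpace (Cp (D T)) := DenseRange.separableSpace (f := r) (fun y => cl.2 fun F ε p => by
      obtain ⟨g, g1, g2⟩ := ip (F.image fun x => x.1) fun x => if h : x ∈ T then y.1 ⟨x, h⟩ else 0
      refine ⟨_, ⟨⟨g, g1⟩, rfl⟩, fun x hx => ?_⟩
      rwa [show (r ⟨g, g1⟩).1 x = y.1 x from (g2 _ (Finset.mem_image_of_mem _ hx)).trans (dif_pos x.2), sub_self, abs_zero])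
      (Continuous.subtype_mk (continuous_pi fun x => continuous_eval_const _) _)
    obtain ⟨A, a1, a2⟩ := exists_countable_dense (Cp (D T))
    refine ⟨A, a1, fun y => ⟨a2 y, fun B b hy => ?_⟩⟩
    by_cases q : y ∈ B
    · exact ⟨fun _ => y, fun _ => q, tendsto_const_nhds⟩
    obtain ⟨a, rfl⟩ := (a1.mono b).exists_eq_range (closure_nonempty_iff.1 ⟨y, hy⟩)
    let V : D T × ℕ → Set (Cp (D T)) := fun t => {f | |f.1 t.1 - y.1 t.1| < 1 / (t.2 + 1)}
    obtain ⟨P, p1, p2⟩ := H ((a ⁻¹' ·) '' range V) (mk_image_le.trans (mk_range_le.trans (by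
      simp [hD, aleph0_le_aleph]))) fun 𝒢 g1 g2 => by
      obtain ⟨𝒲, w1, w2, rfl⟩ := g2.exists_subset_finite_image_eq g1
      have o : IsOpen (⋂₀ 𝒲) := w2.isOpen_sInter fun W hW => by
        obtain ⟨t, rfl⟩ := w1 hW
        exact isOpen_lt (((continuous_apply t.1).comp continuous_subtype_val).sub continuous_const).abs continuous_const
      have i : (⋂₀ 𝒲 ∩ range a).Infinite := fun f => q (f.isClosed.closure_subset (o.inter_closure ⟨fun W hW => by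
        obtain ⟨t, rfl⟩ := w1 hW
        show |y.1 t.1 - y.1 t.1| < 1 / ((t.2 : ℝ) + 1)
        rw [sub_self, abs_zero]; positivity, hy⟩)).2
      refine (i.preimage inter_subset_right).mono ?_
      rintro n hn _ ⟨W, hW, rfl⟩
      exact hn.1 W hW
    refine ⟨fun n => a (Nat.nth (· ∈ P) n), fun n => ⟨_, rfl⟩, ev.2 fun x => Metric.tendsto_nhds.2 fun ε e => ?_⟩
    obtain ⟨m, hm⟩ := exists_nat_one_div_lt e
    have := (Nat.nth_injective p1).tendsto_cofinite.eventually (p2 _ ⟨_, ⟨(x, m), rfl⟩, rfl⟩).eventually_cofinite_notMem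
    rw [Nat.cofinite_eq_atTop] at this
    exact this.mono fun n hn => lt_trans (not_not.1 fun z => hn ⟨Nat.nth_mem_of_infinite p1 n, z⟩) hm
  · obtain ⟨u, u1, u2⟩ := h (range fun F : Finset (D T) => ⟨fun x => if x ∈ F then 0 else 1, continuous_of_discreteTopology⟩)
      ⟨0, continuous_zero⟩ (cl.2 fun F ε p => ⟨_, ⟨F, rfl⟩, fun x hx => by simpa [hx] using p⟩)
    choose F hF using u1
    have : Uncountable (D T) := by rw [← aleph0_lt_mk_iff, hD]; exact aleph0_lt_aleph_one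
    obtain ⟨x, hx⟩ := (ne_univ_iff_exists_notMem (⋃ n, (F n : Set (D T)))).1 fun e =>
      not_countable_univ (e ▸ countable_iUnion fun n => (F n).countable_toSet)
    have := ev.1 u2 x
    simp only [← hF, fun n => if_neg (t := (0 : ℝ)) (e := 1) (show x ∉ F n from fun z => hx (mem_iUnion.2 ⟨n, z⟩))] at this
    exact one_ne_zero (tendsto_const_nhds_iff.1 this)

end Pool.Agent.Results.MP_1ca5ad_gt.Cons
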